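import Mathlib
import Pool.Agent.H16.Pir

set_option autoImplicit false

namespace Pool.Agent.Results.MP_f85992_lc.Counter

open Pool.Agent.H16.Pir

/-- The residual step fails: a binary `(7,5,5,5,5)`-PIR code of length 14 exists, but no binary
`(3,3,3,3)`-PIR code of length 7. -/
theorem result :
    ¬ ∀ (F : Type) [Field F] [Fintype F] (k n : ℕ) (t : Fin (k + 1) → ℕ),
      1 ≤ k → Antitone t → (∀ j, 1 ≤ t j) →
      (∃ G : Matrix (Fin (k + 1)) (Fin n) F, IsPIR G t) →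
      ∃ G' : Matrix (Fin k) (Fin (n - t 0)) F,
        IsPIR G' (fun j => ⌈(t j.succ : ℚ) / Fintype.card F⌉₊) := by
  intro h
  obtain ⟨G', hG⟩ := h (ZMod 2) 4 14 t0 (by norm_num) (by decide) (by decide) ⟨G0, pir0⟩
  have h1 : (fun j : Fin 4 => ⌈(t0 j.succ : ℚ) / Fintype.card (ZMod 2)⌉₊) = ![3, 3, 3, 3] := by
    have h5 : ⌈((5 : ℕ) : ℚ) / Fintype.card (ZMod 2)⌉₊ = 3 := by
      rw [ZMod.card, Nat.ceil_eq_iff (by norm_num)]
      norm_num
    funext j
    fin_cases j <;> exact h5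
  rw [h1] at hG
  exact nopir G' hG

end Pool.Agent.Results.MP_f85992_lc.Counter
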